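import Pool.Agent.H75.ERG.Targets

/-!
# Invariant functions of polygonal billiards: row C_NB, the cost function near a point
-/

set_option autoImplicit false

namespace Pool.Agent.H91.EG

open MeasureTheory Set Metric Filter Topology Pool.Agent.H93.BL
open Pool.Agent.H93.EN (av md rf chi gchi Bd Ml Nl Inv Agr sg VV Chart LS Phi)
open Pool.Agent.H93.EG (InvG Sm gN hN nrm)
open Pool.Agent.H75.ERG

theorem ae_off {ι : Type} (P : Polygon ι) (hn : ∀ j : ι, volume {y : ℂ | sg P j y = 0} = 0)
    (τ : Option ι) : ∀ᵐ y : ℂ, ∀ j, τ = some j → sg P j y ≠ 0 := by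
  cases τ with
  | none => exact Filter.Eventually.of_forall fun y j h => by simp at h
  | some i =>
    have h : ∀ᵐ y : ℂ, sg P i y ≠ 0 := by
      rw [ae_iff]
      simpa using hn i
    filter_upwards [h] with y hy j hj
    cases hj
    exact hy

theorem ae_shift {p : ℂ → Prop} (h : ∀ᵐ y : ℂ, p y) (c : ℂ) : ∀ᵐ y : ℂ, p (y + c) :=
  (measurePreserving_add_right (volume : Measure ℂ) c).quasiMeasurePreserving.ae h

theorem nb (hCHT : Pool.Agent.H93.EN.T_CHT) (hLI : T_LIG) : T_NB := by
  intro ι P κ Λ a L δ K F m A x hx ha τ hch w hw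
  obtain ⟨-, -, hpos, -, hnull⟩ := hCHT ι P
  have hκ : 0 < κ := A.ls.1
  have ha0 := A.a0
  have hδ0 := A.δ0
  have hΛ0 := A.Λ0
  have hL0 := A.L0
  have h1 := A.h1
  have h2 := A.h2
  have hκa : 0 < κ * a := mul_pos hκ ha0
  have hR : κ * a < κ * infDist x (VV P) := mul_lt_mul_of_pos_left ha hκ
  have hR0 : 0 < κ * infDist x (VV P) := hκa.trans hR
  have hR4 : κ * a / 4 ≤ κ * infDist x (VV P) := by linarith
  have hxoff : ∀ j, τ = some j → 0 < sg P j x := by
    intro j hj
    subst hj
    exact hpos x _ j hx hR0 hch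
  have hxm : Phi P m τ x w = m x w := by
    cases τ with
    | none => rfl
    | some j => simp only [Phi, if_pos (hxoff j rfl)]
  have lip := A.cost.lip x hx ha.le _ τ hR4 hch
  have hoff := ae_off P hnull τ
  refine ⟨?_, ?_, ?_⟩
  · filter_upwards [hoff] with y hy hyb
    have hyd : ‖y - x‖ < 2 * δ := by rwa [mem_ball, dist_eq_norm] at hyb
    have e1 : x + ((0 : ℝ) : ℂ) * w + (y - x) = y := by
      rw [Complex.ofReal_zero, zero_mul, add_zero, add_sub_cancel]
    have hl := lip x w (y - x) 0 hw (mem_ball_self (by positivity))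
      (by rw [e1, mem_ball, dist_eq_norm]; linarith) (by rw [abs_zero, mul_zero]; exact hκa)
      (by linarith) (fun j hj => ⟨(hxoff j hj).ne', by rw [e1]; exact hy j hj⟩)
    rw [e1, hxm, abs_zero, zero_div, zero_add] at hl
    refine ⟨hl, hl.trans ?_⟩
    rw [div_le_iff₀ ha0]
    nlinarith [norm_nonneg (y - x)]
  · intro y
    cases τ with
    | none => rfl
    | some j =>
      simp only [Phi]
      by_cases h : 0 < sg P j y
      · simp only [if_pos h, cutG]
      · simp only [if_neg h, cutG]
  · intro t ht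
    have hF := hLI ι P F A.inv x _ τ hch w hw t
    have hoff2 := ae_shift hoff ((t : ℂ) * w)
    filter_upwards [hF, hoff, hoff2] with y hyF hy1 hy2 hyb
    have hyd : ‖y - x‖ < δ := by rwa [mem_ball, dist_eq_norm] at hyb
    have htw : ‖(t : ℂ) * w‖ < δ := by
      rw [norm_mul, hw, mul_one, Complex.norm_real, Real.norm_eq_abs]
      exact ht
    have hyt : ‖y + (t : ℂ) * w - x‖ < 2 * δ := by
      calc ‖y + (t : ℂ) * w - x‖ = ‖(y - x) + (t : ℂ) * w‖ := by congr 1; ring
        _ ≤ ‖y - x‖ + ‖(t : ℂ) * w‖ := norm_add_le _ _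
        _ < 2 * δ := by linarith
    constructor
    · have hl := lip y w 0 t hw (by rw [mem_ball, dist_eq_norm]; linarith)
        (by rw [add_zero, mem_ball, dist_eq_norm]; linarith) (by linarith)
        (by rw [norm_zero, mul_zero]; exact hκa)
        (fun j hj => ⟨hy1 j hj, by rw [add_zero]; exact hy2 j hj⟩)
      rw [add_zero, norm_zero, mul_zero, zero_div, add_zero] at hl
      exact hl
    · exact hyF (by rw [mem_ball, dist_eq_norm]; linarith)
        (by rw [mem_ball, dist_eq_norm]; linarith)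

end Pool.Agent.H91.EG
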